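import Mathlib

set_option autoImplicit false

namespace Pool.Agent.Results.MP_207d4d_co.Counter
open Finset

/-- `H` is isomorphic to an induced subgraph of `G` (graphs given by edge multiplicities). -/
def Le {m n : ℕ} (H : Fin m → Fin m → ℕ) (G : Fin n → Fin n → ℕ) : Prop :=
  ∃ f : Fin m → Fin n, Function.Injective f ∧ ∀ a b, H a b = G (f a) (f b)

/-- Number of isomorphism classes of graphs on `j` vertices in the interval `[H, G]`. -/
noncomputable def rank {m n : ℕ} (H : Fin m → Fin m → ℕ) (G : Fin n → Fin n → ℕ) (j : ℕ) : ℕ :=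
  Nat.card (Quot fun K K' : {K : Fin j → Fin j → ℕ // (∀ a b, K a b = K b a) ∧ Le H K ∧ Le K G} =>
    ∃ e : Fin j ≃ Fin j, ∀ a b, K.1 a b = K'.1 (e a) (e b))

def q {j : ℕ} (μ : ℕ × ℕ × ℕ) (a : Fin j) : Fin 4 :=
  if a.1 < μ.1 then 0 else if a.1 < μ.2.1 then 1 else if a.1 < μ.2.2 then 2 else 3

def mp {j : ℕ} (c : Fin j → Fin 4) : Fin j → Fin j → ℕ := fun a b => if c a = c b then 0 else 1

def G : Fin 24 → Fin 24 → ℕ := mp (q (8, 16, 20))

def H : Fin 1 → Fin 1 → ℕ := fun _ _ => 0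

theorem mp_symm {j : ℕ} (c : Fin j → Fin 4) (a b : Fin j) : mp c a b = mp c b a := by
  simp only [mp, eq_comm]

theorem H_le {j : ℕ} (c : Fin (j + 1) → Fin 4) : Le H (mp c) :=
  ⟨fun _ => 0, fun _ _ _ => Subsingleton.elim _ _, fun _ _ => by simp [H, mp]⟩

def emb {j : ℕ} (μ : ℕ × ℕ × ℕ) (a : Fin j) : Fin 24 :=
  Fin.ofNat 24 (if a.1 < μ.1 then a.1 else if a.1 < μ.2.1 then a.1 - μ.1 + 8
    else if a.1 < μ.2.2 then a.1 - μ.2.1 + 16 else a.1 - μ.2.2 + 20)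

theorem le_G {j : ℕ} (μ : ℕ × ℕ × ℕ) (h1 : Function.Injective (emb (j := j) μ))
    (h2 : ∀ a : Fin j, q (8, 16, 20) (emb μ a) = q μ a) : Le (mp (q (j := j) μ)) G :=
  ⟨emb μ, h1, fun a b => by simp only [G, mp, h2]⟩

def inv {j : ℕ} (K : Fin j → Fin j → ℕ) : ℕ := ∑ a, 25 ^ ∑ b, K a b

theorem inv_iso {j : ℕ} {K K' : Fin j → Fin j → ℕ} (e : Fin j ≃ Fin j)
    (h : ∀ a b, K a b = K' (e a) (e b)) : inv K = inv K' := by
  unfold inv
  rw [← e.sum_comp fun a => 25 ^ ∑ b, K' a b]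
  refine sum_congr rfl fun a _ => ?_
  rw [← e.sum_comp (K' (e a))]
  simp only [h]

instance fin (j : ℕ) : Finite {K : Fin j → Fin j → ℕ // (∀ a b, K a b = K b a) ∧ Le H K ∧ Le K G} := by
  refine Set.Finite.subset (Set.finite_range fun (f : Fin j → Fin 24) a b => G (f a) (f b)) ?_
  rintro K ⟨-, -, f, -, h⟩
  exact ⟨f, by ext a b; exact (h a b).symm⟩

theorem lower {j N : ℕ} (l : Fin N → ℕ × ℕ × ℕ) (h1 : ∀ i, Function.Injective (emb (j := j + 1) (l i)))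
    (h2 : ∀ i, ∀ a : Fin (j + 1), q (8, 16, 20) (emb (l i) a) = q (l i) a)
    (h3 : Function.Injective fun i => inv (mp (q (j := j + 1) (l i)))) : N ≤ rank H G (j + 1) := by
  rw [← Nat.card_fin N]
  refine Nat.card_le_card_of_injective
    (fun i => Quot.mk _ ⟨mp (q (l i)), mp_symm _, H_le _, le_G _ (h1 i) (h2 i)⟩) fun i i' h => h3 ?_
  exact congrArg (Quot.lift (fun K => inv K.1) fun K K' ⟨e, he⟩ => inv_iso e he) h

def l14 : Fin 31 → ℕ × ℕ × ℕ := ![(4, 8, 11), (4, 8, 12), (5, 8, 11), (5, 9, 12), (5, 9, 13), (5, 10, 12), (5, 10, 13), (5, 10, 14), (6, 9, 12), (6, 10, 12), (6, 10, 13), (6, 10, 14), (6, 11, 13), (6, 11, 14), (6, 12, 13), (6, 12, 14), (7, 10, 12), (7, 10, 13), (7, 11, 13), (7, 11, 14), (7, 12, 13), (7, 12, 14), (7, 13, 14), (7, 14, 14), (8, 10, 12), (8, 11, 13), (8, 11, 14), (8, 12, 13), (8, 12, 14), (8, 13, 14), (8, 14, 14)]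

def l15 : Fin 30 → ℕ × ℕ × ℕ := ![(4, 8, 12), (5, 9, 12), (5, 9, 13), (5, 10, 13), (5, 10, 14), (6, 9, 12), (6, 10, 13), (6, 10, 14), (6, 11, 13), (6, 11, 14), (6, 11, 15), (6, 12, 14), (6, 12, 15), (7, 10, 13), (7, 11, 13), (7, 11, 14), (7, 11, 15), (7, 12, 14), (7, 12, 15), (7, 13, 14), (7, 13, 15), (7, 14, 15), (8, 11, 13), (8, 11, 14), (8, 12, 14), (8, 12, 15), (8, 13, 14), (8, 13, 15), (8, 14, 15), (8, 15, 15)]

def l16 : Fin 31 → ℕ × ℕ × ℕ := ![(4, 8, 12), (5, 9, 13), (5, 10, 13), (5, 10, 14), (6, 10, 13), (6, 10, 14), (6, 11, 14), (6, 11, 15), (6, 12, 14), (6, 12, 15), (6, 12, 16), (7, 10, 13), (7, 11, 14), (7, 11, 15), (7, 12, 14), (7, 12, 15), (7, 12, 16), (7, 13, 15), (7, 13, 16), (7, 14, 15), (7, 14, 16), (8, 11, 14), (8, 12, 14), (8, 12, 15), (8, 12, 16), (8, 13, 15), (8, 13, 16), (8, 14, 15), (8, 14, 16), (8, 15, 16), (8, 16, 16)]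

theorem r14 : 31 ≤ rank H G 14 :=
  lower l14 (by decide +kernel) (by decide +kernel) (by decide +kernel)

theorem r16 : 31 ≤ rank H G 16 :=
  lower l16 (by decide +kernel) (by decide +kernel) (by decide +kernel)

def sz (μ : ℕ × ℕ × ℕ) : Fin 4 → ℕ := ![μ.1, μ.2.1 - μ.1, μ.2.2 - μ.2.1, 15 - μ.2.2]

theorem hsz : ∀ i t, #{a : Fin 15 | q (l15 i) a = t} = sz (l15 i) t := by decide +kernel

theorem cover : ∀ a b : Fin 9, ∀ c d : Fin 5, a.1 + b.1 + c.1 + d.1 = 15 →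
    ∃ i, ∃ σ : Equiv.Perm (Fin 4), ∀ t, ![a.1, b.1, c.1, d.1] t = sz (l15 i) (σ t) := by
  decide +kernel

theorem r15 : rank H G 15 ≤ 30 := by
  rw [← Nat.card_fin 30]
  have h1 : ∀ i, Function.Injective (emb (j := 15) (l15 i)) := by decide +kernel
  have h2 : ∀ i, ∀ a : Fin 15, q (8, 16, 20) (emb (l15 i) a) = q (l15 i) a := by decide +kernel
  refine Nat.card_le_card_of_surjective
    (fun i => Quot.mk _ ⟨mp (q (l15 i)), mp_symm _, H_le _, le_G _ (h1 i) (h2 i)⟩) ?_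
  rintro ⟨K, -, -, f, hf, h⟩
  let c : Fin 15 → Fin 4 := fun a => q (8, 16, 20) (f a)
  have b : ∀ t, #{a | c a = t} ≤ ![8, 8, 4, 4] t := fun t => by
    have : ∀ t, #{a : Fin 24 | q (8, 16, 20) a = t} = ![8, 8, 4, 4] t := by decide +kernel
    rw [← this]
    exact card_le_card_of_injOn f (fun a ha => by simpa using ha) hf.injOn
  have s : #{a | c a = 0} + #{a | c a = 1} + #{a | c a = 2} + #{a | c a = 3} = 15 := by
    have := card_eq_sum_card_fiberwise (f := c) (s := univ) (t := univ) (fun _ _ => mem_univ _)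
    rw [Fin.sum_univ_four] at this
    simpa using this.symm
  obtain ⟨i, σ, hσ⟩ := cover ⟨_, Nat.lt_succ_of_le (b 0)⟩ ⟨_, Nat.lt_succ_of_le (b 1)⟩
    ⟨_, Nat.lt_succ_of_le (b 2)⟩ ⟨_, Nat.lt_succ_of_le (b 3)⟩ s
  have e : ∀ t, {a // σ (c a) = t} ≃ {a : Fin 15 // q (l15 i) a = t} := fun t =>
    Fintype.equivOfCardEq (by
      rw [Fintype.card_subtype, Fintype.card_subtype, hsz, ← σ.apply_symm_apply t, ← hσ]
      simp only [EmbeddingLike.apply_eq_iff_eq]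
      generalize σ.symm t = u
      fin_cases u <;> rfl)
  refine ⟨i, (Quot.sound ⟨Equiv.ofFiberEquiv e, fun a b => ?_⟩).symm⟩
  show K a b = mp _ _ _
  simp only [mp, Equiv.ofFiberEquiv_map, EmbeddingLike.apply_eq_iff_eq, h, G, c]

theorem result : ∃ (m n : ℕ) (H : Fin m → Fin m → ℕ) (G : Fin n → Fin n → ℕ),
    (∀ a b, H a b = H b a) ∧ (∀ a b, G a b = G b a) ∧ Le H G ∧
    ∃ i j k : ℕ, m ≤ i ∧ i < j ∧ j < k ∧ k ≤ n ∧ rank H G j < rank H G i ∧ rank H G j < rank H G k :=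
  ⟨1, 24, H, G, fun _ _ => rfl, mp_symm _, H_le _, 14, 15, 16, by norm_num, by norm_num,
    by norm_num, by norm_num, r15.trans_lt r14, r15.trans_lt r16⟩

end Pool.Agent.Results.MP_207d4d_co.Counter
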